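import Pool.Agent.Run7.h108.Bridge

/-!
# One electron in the field of arbitrarily many nuclei of charge at most 104

One electron restricted to the positive spectral subspace of the magnetic Dirac operator `D_a`,
with arbitrarily many fixed nuclei of charges at most `104`, for every vector potential `a` with
square integrable gradient: the total energy, field energy included, is nonnegative at the
physical value `1/137.037` of the fine structure constant.
-/

set_option autoImplicit false

open scoped InnerProductSpace ContDiff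
open MeasureTheory

namespace Pool.Agent.Results.MP_76ec1f_mp.OneElectron

open Run7.h108.Model

/-- **Stability of one-electron Brown-Ravenhall molecules in arbitrary magnetic fields.** -/
theorem result (m : ℝ) (a : R3 → R3) (b : Fin 3 → Fin 3 → R3 → ℝ) (hab : IsField a b)
    (P : (R3 → Spinor) → R3 → Spinor) (hP : IsPosProj m a P) (K : ℕ) (y : Fin K → R3)
    (hy : Function.Injective y) (z : Fin K → ℝ) (hz : ∀ k, 0 < z k ∧ z k ≤ 104)
    (ψ : R3 → Spinor) (hL : L2 ψ) (hψ : nsq ψ = 1) (e : ℝ) (he : FormLe m a P ψ e) :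
    IntegrableR (fun x => coulomb z y x * ‖ψ x‖ ^ 2) ∧
      0 ≤ e + fsc * (intR fun x => coulomb z y x * ‖ψ x‖ ^ 2) +
        1 / (8 * Real.pi) * intR fun x => curlNorm b x ^ 2 := by
  have hpi := Real.pi_pos
  have hpi1 := Real.pi_gt_d4
  have hpi2 := Real.pi_lt_d4
  have hf : 0 < fsc := fsc_pos
  have hw := weakField hab
  obtain ⟨Q, hQS, hQ⟩ := exists_op hab hP
  have hform := formLe_bridge hab hP hQ hL he
  obtain ⟨hint, hpos⟩ := Run7.h108.one_electron hw Run7.h108.dirac m hQS (K := K) hy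
    (ε := 0.046) (a := fsc) (Z := 104) (s := 0.12) (by norm_num) (by norm_num) (by norm_num) hf
    (by norm_num)
    (by
      rw [← mul_div_assoc, le_div_iff₀ hpi]
      unfold fsc
      nlinarith)
    (by
      have e1 : 5 / 4 * (1 - (0.046 : ℝ)) * (4 / Real.pi) = 4.77 / Real.pi := by
        field_simp; norm_num
      have e2 : (4.77 : ℝ) / Real.pi ≤ 4.77 / 3 := by
        refine div_le_div_of_nonneg_left (by norm_num) (by norm_num) ?_
        linarith
      rw [e1]
      unfold fsc
      norm_num at e2 ⊢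
      linarith)
    hform (z := z) (fun k => ⟨(hz k).1.le, (hz k).2⟩)
  have hae := MemLp.coeFn_toLp hL
  have hnorm : ‖(MemLp.toLp ψ hL : HH)‖ ^ 2 = 1 := by rw [← nsq_eq hL, hψ]
  have hsq : Integrable (fun x => ‖ψ x‖ ^ 2) := (memLp_two_iff_integrable_sq_norm hL.1).1 hL
  have hint' : ∀ k, Integrable (fun x => 1 / ‖x - y k‖ * ‖ψ x‖ ^ 2) := by
    intro k
    refine (hint k).congr ?_
    filter_upwards [hae] with x hx
    rw [hx]
  have hval : ∀ k, ∫ x, 1 / ‖x - y k‖ * ‖(MemLp.toLp ψ hL : HH) x‖ ^ 2 =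
      ∫ x, 1 / ‖x - y k‖ * ‖ψ x‖ ^ 2 := by
    intro k
    refine integral_congr_ae ?_
    filter_upwards [hae] with x hx
    rw [hx]
  have hterm : ∀ k, Integrable (fun x => z k / ‖x - y k‖ * ‖ψ x‖ ^ 2) := by
    intro k
    refine ((hint' k).const_mul (z k)).congr (Filter.Eventually.of_forall fun x => ?_)
    simp only
    ring
  have hWint : Integrable (fun x => coulomb z y x * ‖ψ x‖ ^ 2) := by
    have h1 := (hsq.const_mul (∑ k, ∑ l ∈ Finset.Ioi k, z k * z l / ‖y k - y l‖)).sub
      (integrable_finsetSum Finset.univ fun k _ => hterm k)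
    refine h1.congr (Filter.Eventually.of_forall fun x => ?_)
    simp only [Pi.sub_apply]
    unfold coulomb
    rw [sub_mul, Finset.sum_mul Finset.univ (fun k => z k / ‖x - y k‖)]
  have hWval : ∫ x, coulomb z y x * ‖ψ x‖ ^ 2 = Run7.h108.pairS z y * 1 -
      ∑ k, z k * ∫ x, 1 / ‖x - y k‖ * ‖(MemLp.toLp ψ hL : HH) x‖ ^ 2 := by
    have e1 : ∫ x, coulomb z y x * ‖ψ x‖ ^ 2 =
        ∫ x, ((∑ k, ∑ l ∈ Finset.Ioi k, z k * z l / ‖y k - y l‖) * ‖ψ x‖ ^ 2 -
          ∑ k, z k / ‖x - y k‖ * ‖ψ x‖ ^ 2) := by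
      refine integral_congr_ae (Filter.Eventually.of_forall fun x => ?_)
      simp only
      unfold coulomb
      rw [sub_mul, Finset.sum_mul Finset.univ (fun k => z k / ‖x - y k‖)]
    rw [e1, integral_sub (hsq.const_mul _) (integrable_finsetSum Finset.univ fun k _ => hterm k),
      integral_const_mul, integral_finsetSum Finset.univ fun k _ => hterm k]
    have e2 : ∫ x, ‖ψ x‖ ^ 2 = 1 := hψ
    rw [e2]
    congr 1
    refine Finset.sum_congr rfl fun k _ => ?_
    rw [hval, ← integral_const_mul]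
    refine integral_congr_ae (Filter.Eventually.of_forall fun x => ?_)
    simp only
    ring
  refine ⟨hWint, ?_⟩
  unfold intR
  rw [hWval]
  rw [curl_int, hnorm] at hpos
  have hB : 0 ≤ ∫ x, curlNorm b x ^ 2 := integral_nonneg fun x => sq_nonneg _
  obtain ⟨B, hBd⟩ : ∃ B, B = ∫ x, curlNorm b x ^ 2 := ⟨_, rfl⟩
  rw [← hBd] at hpos hB ⊢
  have hconst : (0.12 / (500 * 0.046 ^ 3) + 5 / 4 * (1 - 0.046) * (4 / (5 * Real.pi)) / 0.12) *
      (fsc * B) ≤ 1 / (8 * Real.pi) * B := by
    rw [← mul_assoc]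
    refine mul_le_mul_of_nonneg_right ?_ hB
    have e4 : (0.12 / (500 * 0.046 ^ 3) + 5 / 4 * (1 - 0.046) * (4 / (5 * Real.pi)) / 0.12) * fsc =
        (0.12 / (500 * 0.046 ^ 3) * Real.pi + 7.95) * fsc * 8 * (1 / (8 * Real.pi)) := by
      field_simp
      ring
    rw [e4]
    have e5 : (0.12 / (500 * 0.046 ^ 3) * Real.pi + 7.95) * fsc * 8 ≤ 1 := by
      unfold fsc
      nlinarith
    exact mul_le_of_le_one_left (by positivity) e5
  nlinarith [hpos, hconst]

end Pool.Agent.Results.MP_76ec1f_mp.OneElectron
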